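import Mathlib
import Pool.Agent.K4H35.QH.Law

/-!
# Modules over a category of correspondences

`C a c` are spaces of correspondences which act on spaces `H m`; `cl` is the cohomology class.
-/

set_option autoImplicit false
set_option linter.unusedSectionVars false

namespace Pool.Agent.K4H10.QM

open Matrix Module Filter Topology Pool.Agent.K4H54.PL Pool.Agent.K4H10.QZ Pool.Agent.K4H35.QB

noncomputable section

universe u w

variable {k : Type} [Field k] {ι : Type} [Fintype ι] [DecidableEq ι]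

/-- Correspondences `C a c` with classes in the closed family `R`, acting on the spaces `H m`; the
correspondences of class zero act nilpotently. -/
structure Acts (R : ∀ a c : ℕ, Matrix (Fin c → ι) (Fin a → ι) k → Prop)
    (C : ℕ → ℕ → Type u) [∀ a c, AddCommGroup (C a c)] [∀ a c, Module k (C a c)]
    (H : ℕ → Type w) [∀ m, AddCommGroup (H m)] [∀ m, Module k (H m)] where
  cl : ∀ {a c : ℕ}, C a c →ₗ[k] Matrix (Fin c → ι) (Fin a → ι) k
  comp : ∀ {a b c : ℕ}, C b c → C a b → C a c
  one : ∀ a : ℕ, C a a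
  act : ∀ {a c : ℕ}, C a c →ₗ[k] H a →ₗ[k] H c
  mem : ∀ {a c : ℕ} (x : C a c), R a c (cl x)
  surj : ∀ {a c : ℕ} (F : Matrix (Fin c → ι) (Fin a → ι) k), R a c F → ∃ x : C a c, cl x = F
  cl_comp : ∀ {a b c : ℕ} (x : C b c) (y : C a b), cl (comp x y) = cl x * cl y
  cl_one : ∀ a : ℕ, cl (one a) = 1
  act_comp : ∀ {a b c : ℕ} (x : C b c) (y : C a b) (z : H a), act (comp x y) z = act x (act y z)
  act_one : ∀ (a : ℕ) (z : H a), act (one a) z = z
  nil : ∀ (a : ℕ) (x : C a a), cl x = 0 → ∀ z : H a, ∃ r : ℕ, (act x)^[r] z = 0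

section

variable {R : ∀ a c : ℕ, Matrix (Fin c → ι) (Fin a → ι) k → Prop} {q qi : Matrix ι ι k}
  {σ : ι → k} {x₀ φ₀ : T k ι 1} {c₀ : ℕ}

/-- Left ideals are generated by idempotents. -/
theorem ideal_idem [CharZero k] (h : Rig R q qi σ) (hnd : Nondeg R) (n : ℕ)
    (J : Submodule (AA h n) (AA h n)) :
    ∃ e : AA h n, e * e = e ∧ ∀ a, a ∈ J ↔ a * e = 0 := by
  have hss := ss h hnd n
  obtain ⟨C, hC⟩ := exists_isCompl J
  obtain ⟨j, hj, c, hc, hjc⟩ := Submodule.mem_sup.1
    (show (1 : AA h n) ∈ J ⊔ C by rw [hC.sup_eq_top]; trivial)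
  have hkey : ∀ a ∈ J, a * c = 0 := by
    intro a ha
    have h1 : a * c ∈ C := C.smul_mem a hc
    have h2 : a * c = a - a * j := by
      have h5 : a * (j + c) = a := by rw [hjc, mul_one]
      rw [mul_add] at h5
      exact eq_sub_of_add_eq' h5
    have h3 : a * c ∈ J := by
      rw [h2]
      exact J.sub_mem ha (J.smul_mem a hj)
    have h4 : a * c ∈ J ⊓ C := ⟨h3, h1⟩
    rw [hC.inf_eq_bot] at h4
    exact h4
  have hc1 : c = 1 - j := eq_sub_of_add_eq' hjc
  refine ⟨c, ?_, fun a => ⟨hkey a, fun ha => ?_⟩⟩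
  · have h2 := hkey j hj
    have h3 : (1 - j) * c = c := by rw [sub_mul, one_mul, h2, sub_zero]
    rwa [← hc1] at h3
  · have h5 : a * (j + c) = a := by rw [hjc, mul_one]
    rw [mul_add, ha, add_zero] at h5
    rw [← h5]
    exact J.smul_mem a hj

/-- The growth of the space of homomorphisms from a summand. -/
theorem ratio_RE (h : Dat R q qi σ x₀ φ₀ c₀) {n : ℕ} {e : Matrix (Fin n → ι) (Fin n → ι) k}
    (he : R n n e) (hee : e * e = e) (he0 : e ≠ 0) :
    ∃ L : ℕ, 1 ≤ L ∧ Tendsto (fun m => (finrank k (RE R h.rig.clo h.rig.zero e m) : ℝ) /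
      finrank k (BB R h.rig.clo h.rig.zero m)) atTop (𝓝 L) := by
  have hrk : 1 ≤ e.rank := by
    rw [Nat.one_le_iff_ne_zero]
    intro h0
    apply he0
    have h1 : LinearMap.range e.mulVecLin = ⊥ := Submodule.finrank_eq_zero.1 h0
    have h2 : e.mulVecLin = 0 := LinearMap.range_eq_bot.1 h1
    ext i j
    have h3 := congrFun (LinearMap.congr_fun h2 (Pi.single j 1)) i
    rw [mulVecLin_apply, Matrix.mulVec_single_one] at h3
    exact h3
  rcases Nat.eq_zero_or_pos n with rfl | hn
  · refine ⟨1, le_rfl, ?_⟩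
    have he1 : e = 1 := by
      ext i j
      rw [Subsingleton.elim j i, Matrix.one_apply_eq]
      have h1 := congrFun (congrFun hee i) i
      rw [Matrix.mul_apply, Fintype.sum_subsingleton _ i] at h1
      have h2 : e i i ≠ 0 := by
        intro h0
        apply he0
        ext i' j'
        rw [Subsingleton.elim i' i, Subsingleton.elim j' i, h0]
        rfl
      exact mul_right_cancel₀ h2 (by rw [h1, one_mul])
    refine (tendsto_const_nhds (x := ((1 : ℕ) : ℝ))).congr fun m => ?_
    have h1 : finrank k (RE R h.rig.clo h.rig.zero e m) =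
        finrank k (BB R h.rig.clo h.rig.zero m) := by
      have h2 : RE R h.rig.clo h.rig.zero e m = VV R h.rig.clo h.rig.zero 0 m := by
        ext F
        constructor
        · rintro ⟨hF, -⟩
          exact hF
        · intro hF
          refine ⟨hF, ?_⟩
          rw [he1, Matrix.mul_one]
      rw [finrank_BB_VV, h2]
    rw [h1, div_self (by exact_mod_cast (h.pos m).ne'), Nat.cast_one]
  · refine ⟨e.rank, hrk, ?_⟩
    have h1 := ratio_LE h.rig h.hD c₀ h.low h.pos hn he hee
    have h2 := ratio_n h.rig h.hD c₀ h.low h.pos h.hx h.hφ h.ne n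
    have hDn : (0 : ℝ) < (Fintype.card ι : ℝ) ^ n := by
      have := h.hD
      positivity
    have h3 := h1.div h2 (by positivity)
    have h4 : (e.rank : ℝ) / (Fintype.card ι : ℝ) ^ n / (1 / (Fintype.card ι : ℝ) ^ n) =
        e.rank := by
      field_simp
    rw [h4] at h3
    refine h3.congr fun m => ?_
    rw [h.facts.re he hee]
    have h6 : (finrank k (BB R h.rig.clo h.rig.zero (m + n)) : ℝ) ≠ 0 := by
      exact_mod_cast (h.pos _).ne'
    exact div_div_div_cancel_right₀ h6 _ _

end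

section mod

variable {R : ∀ a c : ℕ, Matrix (Fin c → ι) (Fin a → ι) k → Prop}
  {C : ℕ → ℕ → Type u} [∀ a c, AddCommGroup (C a c)] [∀ a c, Module k (C a c)]
  {H : ℕ → Type w} [∀ m, AddCommGroup (H m)] [∀ m, Module k (H m)]

/-- The family of subspaces is stable under the correspondences. -/
def Stable (A : Acts R C H) (F : ∀ m, Submodule k (H m)) : Prop :=
  ∀ {a c : ℕ} (x : C a c), ∀ z ∈ F a, A.act x z ∈ F c

/-- There are `n` elements of `F m` which are independent modulo `Q m`. -/
def LI (F Q : ∀ m, Submodule k (H m)) (m n : ℕ) : Prop :=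
  ∃ v : Fin n → H m, (∀ i, v i ∈ F m) ∧ ∀ g : Fin n → k, ∑ i, g i • v i ∈ Q m → g = 0

theorem LI.add {F Q' Q : ∀ m, Submodule k (H m)} (hQ : ∀ m, Q m ≤ Q' m) (hF : ∀ m, Q' m ≤ F m)
    {m n n' : ℕ} (h : LI F Q' m n) (h' : LI Q' Q m n') : LI F Q m (n + n') := by
  obtain ⟨v, hv, hv'⟩ := h
  obtain ⟨w, hw, hw'⟩ := h'
  refine ⟨Fin.append v w, fun i => ?_, fun g hg => ?_⟩
  · refine Fin.addCases (fun i => ?_) (fun i => ?_) i
    · rw [Fin.append_left]
      exact hv i
    · rw [Fin.append_right]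
      exact hF m (hw i)
  · rw [Fin.sum_univ_add] at hg
    simp only [Fin.append_left, Fin.append_right] at hg
    have h2 : ∑ i, g (Fin.natAdd n i) • w i ∈ Q' m :=
      Submodule.sum_mem _ fun i _ => Submodule.smul_mem _ _ (hw i)
    have h3 : ∑ i, g (Fin.castAdd n' i) • v i ∈ Q' m := by
      have h4 := Submodule.sub_mem _ (hQ m hg) h2
      rwa [add_sub_cancel_right] at h4
    have h5 := hv' _ h3
    have h6 : ∀ i, g (Fin.castAdd n' i) = 0 := fun i => congrFun h5 i
    simp only [h6, zero_smul, Finset.sum_const_zero, zero_add] at hg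
    have h7 := hw' _ hg
    funext i
    refine Fin.addCases (fun i => ?_) (fun i => ?_) i
    · exact h6 i
    · exact congrFun h7 i

theorem LI.mono_left {F F' Q : ∀ m, Submodule k (H m)} (hF : ∀ m, F m ≤ F' m) {m n : ℕ}
    (h : LI F Q m n) : LI F' Q m n := by
  obtain ⟨v, hv, hv'⟩ := h
  exact ⟨v, fun i => hF m (hv i), hv'⟩

theorem LI.mono_right {F Q Q' : ∀ m, Submodule k (H m)} (hQ : ∀ m, Q m ≤ Q' m) {m n : ℕ}
    (h : LI F Q' m n) : LI F Q m n := by
  obtain ⟨v, hv, hv'⟩ := h
  exact ⟨v, hv, fun g hg => hv' g (hQ m hg)⟩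

theorem LI.le {F Q : ∀ m, Submodule k (H m)} {m n n' : ℕ} (hn : n' ≤ n) (h : LI F Q m n) :
    LI F Q m n' := by
  obtain ⟨v, hv, hv'⟩ := h
  refine ⟨fun i => v (Fin.castLE hn i), fun i => hv _, fun g hg => ?_⟩
  obtain ⟨j, rfl⟩ := Nat.exists_eq_add_of_le hn
  have h1 := hv' (Fin.append g 0) (by
    rw [Fin.sum_univ_add]
    simp only [Fin.append_left, Fin.append_right, Pi.zero_apply, zero_smul,
      Finset.sum_const_zero, add_zero]
    exact hg)
  funext i
  have h2 := congrFun h1 (Fin.castAdd j i)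
  rwa [Fin.append_left] at h2

theorem LI.finrank_le {F : ∀ m, Submodule k (H m)} {m n : ℕ} [FiniteDimensional k (F m)]
    (h : LI F (fun _ => ⊥) m n) : n ≤ finrank k (F m) := by
  obtain ⟨v, hv, hv'⟩ := h
  have h1 : LinearIndependent k (fun i => (⟨v i, hv i⟩ : F m)) := by
    rw [Fintype.linearIndependent_iff]
    intro g hg i
    have h2 : ∑ i, g i • v i = 0 := by
      have h3 := congrArg Subtype.val hg
      simpa using h3
    exact congrFun (hv' g (by rw [h2]; exact Submodule.zero_mem _)) i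
  have h2 := h1.fintype_card_le_finrank
  rwa [Fintype.card_fin] at h2

theorem LI.of_finrank {F : ∀ m, Submodule k (H m)} {m n : ℕ} [FiniteDimensional k (F m)]
    (h : n ≤ finrank k (F m)) : LI F (fun _ => ⊥) m n := by
  refine LI.le h ?_
  let b := finBasis k (F m)
  refine ⟨fun i => (b i : H m), fun i => (b i).2, fun g hg => ?_⟩
  have h1 : ∑ i, g i • (b i : H m) = 0 := hg
  have h2 := Fintype.linearIndependent_iff.1 b.linearIndependent g (Subtype.ext (by simpa using h1))
  funext i
  exact h2 i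

/-- If a correspondence of class one maps `z` into a stable family then `z` is in the family. -/
theorem mem_of_one (A : Acts R C H) {Q : ∀ m, Submodule k (H m)} (hQ : Stable A Q) {a : ℕ}
    {x : C a a} (hx : A.cl x = 1) {z : H a} (hz : A.act x z ∈ Q a) : z ∈ Q a := by
  have hn : A.cl (A.one a - x) = 0 := by rw [map_sub, A.cl_one, hx, sub_self]
  obtain ⟨r, hr⟩ := A.nil a _ hn z
  have h1 : ∀ r, (A.act (A.one a - x))^[r] z - z ∈ Q a := by
    intro r
    induction r with
    | zero =>
      rw [Function.iterate_zero, id, sub_self]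
      exact Submodule.zero_mem _
    | succ r ih =>
      rw [Function.iterate_succ_apply']
      have h2 : A.act (A.one a - x) ((A.act (A.one a - x))^[r] z) - z =
          A.act (A.one a - x) ((A.act (A.one a - x))^[r] z - z) - A.act x z := by
        rw [map_sub (A.act (A.one a - x))]
        have h3 : A.act (A.one a - x) z = z - A.act x z := by
          rw [map_sub, LinearMap.sub_apply, A.act_one]
        rw [h3]
        abel
      rw [h2]
      exact Submodule.sub_mem _ (hQ _ _ ih) hz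
  have h2 := h1 r
  rw [hr, zero_sub] at h2
  exact (Submodule.neg_mem_iff _).1 h2

/-- **The gap.** -/
theorem gap [CharZero k] {q qi : Matrix ι ι k} {σ : ι → k} (h : Rig R q qi σ) (hnd : Nondeg R)
    (A : Acts R C H) {Q : ∀ m, Submodule k (H m)} (hQ : Stable A Q) {n : ℕ} {z : H n}
    (hz : z ∉ Q n) :
    ∃ e : Matrix (Fin n → ι) (Fin n → ι) k, R n n e ∧ e * e = e ∧ e ≠ 0 ∧
      (∀ (m : ℕ) (x : C n m), A.act x z ∈ Q m → A.cl x * e = 0) ∧
      ∀ F : Matrix (Fin n → ι) (Fin n → ι) k, R n n F → F * e = 0 →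
        ∃ x : C n n, A.cl x = F ∧ A.act x z ∈ Q n := by
  let J : Submodule (AA h n) (AA h n) :=
    { carrier := {a | ∃ x : C n n, A.cl x = a.val ∧ A.act x z ∈ Q n}
      add_mem' := by
        rintro a b ⟨x, hx, hx'⟩ ⟨y, hy, hy'⟩
        refine ⟨x + y, ?_, ?_⟩
        · rw [map_add, hx, hy]
          rfl
        · rw [map_add, LinearMap.add_apply]
          exact Submodule.add_mem _ hx' hy'
      zero_mem' := ⟨0, map_zero _, by
        rw [map_zero, LinearMap.zero_apply]
        exact Submodule.zero_mem _⟩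
      smul_mem' := by
        rintro a b ⟨x, hx, hx'⟩
        obtain ⟨y, hy⟩ := A.surj a.val a.2
        refine ⟨A.comp y x, ?_, ?_⟩
        · rw [A.cl_comp, hx, hy]
          rfl
        · rw [A.act_comp]
          exact hQ y _ hx' }
  obtain ⟨e, hee, hJ⟩ := ideal_idem h hnd n J
  refine ⟨e.val, e.2, congrArg Subtype.val hee, ?_, ?_, ?_⟩
  · intro he0
    have h1 : (1 : AA h n) ∈ J := by
      rw [hJ, one_mul]
      exact Subtype.ext he0
    obtain ⟨x, hx, hx'⟩ := h1
    exact hz (mem_of_one A hQ hx hx')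
  · intro m x hx
    refine eq_zero_of_forall h hnd (h.clo.comp e.2 (A.mem x)) fun G hG => ?_
    obtain ⟨y, hy⟩ := A.surj G hG
    have h1 : (⟨G * A.cl x, h.clo.comp (A.mem x) hG⟩ : AA h n) ∈ J := by
      refine ⟨A.comp y x, ?_, ?_⟩
      · rw [A.cl_comp, hy]
      · rw [A.act_comp]
        exact hQ y _ hx
    rw [hJ] at h1
    have h2 := congrArg Subtype.val h1
    rw [← Matrix.mul_assoc]
    exact h2
  · intro F hF hFe
    have h1 : (⟨F, hF⟩ : AA h n) ∈ J := by
      rw [hJ]
      exact Subtype.ext hFe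
    exact h1

end mod

end

end Pool.Agent.K4H10.QM
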