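import Mathlib
import Pool.Agent.K4H10.QM.Mod

/-!
# The quantization law for modules over correspondences
-/

set_option autoImplicit false
set_option linter.unusedSectionVars false

namespace Pool.Agent.K4H10.QM

open Matrix Module Filter Topology Pool.Agent.K4H54.PL Pool.Agent.K4H10.QZ Pool.Agent.K4H35.QB
open Pool.Agent.K4H35.QH (rad)

noncomputable section

universe u w

variable {k : Type} [Field k] {ι : Type} [Fintype ι] [DecidableEq ι]
  {R RH : ∀ a c : ℕ, Matrix (Fin c → ι) (Fin a → ι) k → Prop} {q qi : Matrix ι ι k} {σ : ι → k}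
  {x₀ φ₀ : T k ι 1} {c₀ : ℕ} {o v : ι → k} {d : ι → ℕ}
  {C : ℕ → ℕ → Type u} [∀ a c, AddCommGroup (C a c)] [∀ a c, Module k (C a c)]
  {H : ℕ → Type w} [∀ m, AddCommGroup (H m)] [∀ m, Module k (H m)]

/-- The family generated by `Q` and `z`. -/
def gen (A : Acts R C H) (Q : ∀ m, Submodule k (H m)) {n : ℕ} (z : H n) (m : ℕ) :
    Submodule k (H m) :=
  Q m ⊔ LinearMap.range (A.act.flip z : C n m →ₗ[k] H m)

theorem mem_gen (A : Acts R C H) (Q : ∀ m, Submodule k (H m)) {n : ℕ} (z : H n) {m : ℕ}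
    {w : H m} : w ∈ gen A Q z m ↔ ∃ p ∈ Q m, ∃ x : C n m, p + A.act x z = w := by
  unfold gen
  rw [Submodule.mem_sup]
  constructor
  · rintro ⟨p, hp, r, ⟨x, rfl⟩, h⟩
    exact ⟨p, hp, x, h⟩
  · rintro ⟨p, hp, x, h⟩
    exact ⟨p, hp, _, ⟨x, rfl⟩, h⟩

theorem le_gen (A : Acts R C H) (Q : ∀ m, Submodule k (H m)) {n : ℕ} (z : H n) (m : ℕ) :
    Q m ≤ gen A Q z m := le_sup_left

theorem self_mem_gen (A : Acts R C H) (Q : ∀ m, Submodule k (H m)) {n : ℕ} (z : H n) :
    z ∈ gen A Q z n :=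
  (mem_gen A Q z).2 ⟨0, Submodule.zero_mem _, A.one n, by rw [A.act_one, zero_add]⟩

theorem stable_gen (A : Acts R C H) {Q : ∀ m, Submodule k (H m)} (hQ : Stable A Q) {n : ℕ}
    (z : H n) : Stable A (gen A Q z) := by
  intro a c x w hw
  obtain ⟨p, hp, y, rfl⟩ := (mem_gen A Q z).1 hw
  refine (mem_gen A Q z).2 ⟨A.act x p, hQ x p hp, A.comp x y, ?_⟩
  rw [A.act_comp, map_add (A.act x)]

theorem gen_le (A : Acts R C H) {Q F : ∀ m, Submodule k (H m)} (hF : Stable A F)
    (hQF : ∀ m, Q m ≤ F m) {n : ℕ} {z : H n} (hz : z ∈ F n) (m : ℕ) : gen A Q z m ≤ F m := by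
  intro w hw
  obtain ⟨p, hp, y, rfl⟩ := (mem_gen A Q z).1 hw
  exact Submodule.add_mem _ (hQF m hp) (hF y z hz)

/-- A basis of the space of homomorphisms gives independent elements. -/
theorem gap_li [CharZero k] (h : Rig R q qi σ) (A : Acts R C H) {Q : ∀ m, Submodule k (H m)}
    {n : ℕ} {z : H n} {e : Matrix (Fin n → ι) (Fin n → ι) k}
    (hk : ∀ (m : ℕ) (x : C n m), A.act x z ∈ Q m → A.cl x * e = 0) (m : ℕ) :
    ∃ x : Fin (finrank k (RE R h.clo h.zero e m)) → C n m,
      (∀ i, A.cl (x i) = (finBasis k (RE R h.clo h.zero e m) i : Matrix _ _ k)) ∧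
      ∀ g : Fin (finrank k (RE R h.clo h.zero e m)) → k,
        ∑ i, g i • A.act (x i) z ∈ Q m → g = 0 := by
  have h1 : ∀ i, ∃ x : C n m, A.cl x = (finBasis k (RE R h.clo h.zero e m) i : Matrix _ _ k) :=
    fun i => A.surj _ (finBasis k (RE R h.clo h.zero e m) i).2.1
  choose x hx using h1
  refine ⟨x, hx, fun g hg => ?_⟩
  have h2 : A.act (∑ i, g i • x i) z = ∑ i, g i • A.act (x i) z := by
    rw [map_sum, LinearMap.sum_apply]
    refine Finset.sum_congr rfl fun i _ => ?_
    rw [map_smul, LinearMap.smul_apply]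
  have h3 := hk m (∑ i, g i • x i) (by rw [h2]; exact hg)
  rw [map_sum, Matrix.sum_mul] at h3
  have h4 : ∑ i, g i • (finBasis k (RE R h.clo h.zero e m) i : Matrix (Fin m → ι) (Fin n → ι) k)
      = 0 := by
    rw [← h3]
    refine Finset.sum_congr rfl fun i _ => ?_
    rw [map_smul, hx, Matrix.smul_mul]
    congr 1
    exact (finBasis k (RE R h.clo h.zero e m) i).2.2.symm
  funext i
  exact Fintype.linearIndependent_iff.1 (finBasis k (RE R h.clo h.zero e m)).linearIndependent g
    (Subtype.ext (by simpa using h4)) i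

/-- There are asymptotically `L ≥ s` times `b` independent elements of `F` modulo `Q`. -/
def Big (b : ℕ → ℕ) (F Q : ∀ m, Submodule k (H m)) (s : ℕ) : Prop :=
  ∃ f : ℕ → ℕ, (∀ m, LI F Q m (f m)) ∧ ∃ L : ℕ, s ≤ L ∧
    Tendsto (fun m => (f m : ℝ) / b m) atTop (𝓝 L)

theorem big_zero (b : ℕ → ℕ) (F Q : ∀ m, Submodule k (H m)) : Big b F Q 0 := by
  refine ⟨fun _ => 0, fun m => ⟨Fin.elim0, fun i => i.elim0, fun g _ => funext fun i => i.elim0⟩,
    0, le_rfl, ?_⟩
  simp

theorem Big.add {b : ℕ → ℕ} {F Q' Q : ∀ m, Submodule k (H m)} (hQ : ∀ m, Q m ≤ Q' m)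
    (hF : ∀ m, Q' m ≤ F m) {s s' : ℕ} (h : Big b F Q' s) (h' : Big b Q' Q s') :
    Big b F Q (s + s') := by
  obtain ⟨f, hf, L, hL, hf'⟩ := h
  obtain ⟨g, hg, L', hL', hg'⟩ := h'
  refine ⟨fun m => f m + g m, fun m => (hf m).add hQ hF (hg m), L + L', add_le_add hL hL', ?_⟩
  have h1 := hf'.add hg'
  rw [Nat.cast_add]
  refine h1.congr fun m => ?_
  rw [Nat.cast_add, add_div]

theorem Big.mono_left {b : ℕ → ℕ} {F F' Q : ∀ m, Submodule k (H m)} (hF : ∀ m, F m ≤ F' m)
    {s : ℕ} (h : Big b F Q s) : Big b F' Q s := by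
  obtain ⟨f, hf, hL⟩ := h
  exact ⟨f, fun m => (hf m).mono_left hF, hL⟩

theorem Big.mono_right {b : ℕ → ℕ} {F Q Q' : ∀ m, Submodule k (H m)} (hQ : ∀ m, Q m ≤ Q' m)
    {s : ℕ} (h : Big b F Q' s) : Big b F Q s := by
  obtain ⟨f, hf, hL⟩ := h
  exact ⟨f, fun m => (hf m).mono_right hQ, hL⟩

theorem Big.mono {b : ℕ → ℕ} {F Q : ∀ m, Submodule k (H m)} {s s' : ℕ} (hs : s' ≤ s)
    (h : Big b F Q s) : Big b F Q s' := by
  obtain ⟨f, hf, L, hL, hf'⟩ := h
  exact ⟨f, hf, L, hs.trans hL, hf'⟩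

theorem big_one [CharZero k] (h : Dat R q qi σ x₀ φ₀ c₀) (hnd : Nondeg R) (A : Acts R C H)
    {Q : ∀ m, Submodule k (H m)} (hQ : Stable A Q) {n : ℕ} {z : H n} (hz : z ∉ Q n) :
    Big (fun m => finrank k (BB R h.rig.clo h.rig.zero m)) (gen A Q z) Q 1 := by
  obtain ⟨e, he, hee, he0, hk, -⟩ := gap h.rig hnd A hQ hz
  obtain ⟨L, hL, hlim⟩ := ratio_RE h he hee he0
  refine ⟨fun m => finrank k (RE R h.rig.clo h.rig.zero e m), fun m => ?_, L, hL, hlim⟩
  obtain ⟨x, -, hx⟩ := gap_li h.rig A hk m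
  refine ⟨fun i => A.act (x i) z, fun i => ?_, hx⟩
  exact stable_gen A hQ z (x i) z (self_mem_gen A Q z)

/-- A nilpotent correspondence gives a strictly smaller family. -/
theorem strict (A : Acts R C H) {Q : ∀ m, Submodule k (H m)} (hQ : Stable A Q) {n m : ℕ}
    {z : H n} (hz : z ∉ Q n) {x : C n m} (hx : A.cl x = 0) : z ∉ gen A Q (A.act x z) n := by
  intro hz'
  obtain ⟨p, hp, y, hy⟩ := (mem_gen A Q _).1 hz'
  apply hz
  refine mem_of_one A hQ (x := A.one n - A.comp y x) ?_ ?_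
  · rw [map_sub, A.cl_one, A.cl_comp, hx, Matrix.mul_zero, sub_zero]
  · rw [map_sub, LinearMap.sub_apply, A.act_one, A.act_comp]
    rw [← eq_sub_iff_add_eq] at hy
    rwa [← hy]

theorem big_all [CharZero k] (h : Dat R q qi σ x₀ φ₀ c₀) (hnd : Nondeg R) (A : Acts R C H)
    {F Q : ∀ m, Submodule k (H m)} (hF : Stable A F) (hQ : Stable A Q)
    (hP : ∀ (n : ℕ), ∀ z ∈ F n, z ∉ Q n → ∃ (m : ℕ) (x : C n m), A.cl x = 0 ∧ A.act x z ∉ Q m)
    (s : ℕ) : ∀ (n : ℕ), ∀ z ∈ F n, z ∉ Q n →
      Big (fun m => finrank k (BB R h.rig.clo h.rig.zero m)) (gen A Q z) Q s := by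
  induction s with
  | zero => exact fun n z _ _ => big_zero _ _ _
  | succ s ih =>
    intro n z hz hz'
    obtain ⟨m, x, hx, hx'⟩ := hP n z hz hz'
    have h1 := ih m (A.act x z) (hF x z hz) hx'
    have h2 := big_one h hnd A (stable_gen A hQ (A.act x z)) (strict A hQ hz' hx)
    have h3 : ∀ l, gen A Q (A.act x z) l ≤ gen A Q z l :=
      gen_le A (stable_gen A hQ z) (le_gen A Q z)
        (stable_gen A hQ z x z (self_mem_gen A Q z))
    have h4 : ∀ l, gen A (gen A Q (A.act x z)) z l ≤ gen A Q z l :=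
      gen_le A (stable_gen A hQ z) h3 (self_mem_gen A Q z)
    have h5 := (h2.mono_left h4).add (le_gen A Q (A.act x z)) h3 h1
    rwa [add_comm] at h5

/-- The family consists of finite dimensional spaces, of dimension asymptotically `K` times `b`. -/
def Lim (b : ℕ → ℕ) (Q : ∀ m, Submodule k (H m)) (K : ℕ) : Prop :=
  (∀ m, FiniteDimensional k (Q m)) ∧
    Tendsto (fun m => (finrank k (Q m) : ℝ) / b m) atTop (𝓝 K)

theorem Lim.big {b : ℕ → ℕ} {Q : ∀ m, Submodule k (H m)} {K : ℕ} (h : Lim b Q K) :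
    Big b Q (fun _ => ⊥) K := by
  refine ⟨fun m => finrank k (Q m), fun m => ?_, K, le_rfl, h.2⟩
  have := h.1 m
  exact LI.of_finrank le_rfl

theorem lim_zero (b : ℕ → ℕ) : Lim b (fun m => (⊥ : Submodule k (H m))) 0 := by
  refine ⟨fun m => inferInstance, ?_⟩
  simp

/-- The next step of the composition series. -/
theorem step [CharZero k] (h : Dat R q qi σ x₀ φ₀ c₀) (hnd : Nondeg R) (A : Acts R C H)
    {Q : ∀ m, Submodule k (H m)} (hQ : Stable A Q) {K : ℕ}
    (hK : Lim (fun m => finrank k (BB R h.rig.clo h.rig.zero m)) Q K) {n : ℕ} {z : H n}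
    (hz : z ∉ Q n) (hN : ∀ (m : ℕ) (x : C n m), A.cl x = 0 → A.act x z ∈ Q m) :
    ∃ L : ℕ, 1 ≤ L ∧
      Lim (fun m => finrank k (BB R h.rig.clo h.rig.zero m)) (gen A Q z) (K + L) := by
  obtain ⟨e, he, hee, he0, hk, hl⟩ := gap h.rig hnd A hQ hz
  obtain ⟨L, hL, hlim⟩ := ratio_RE h he hee he0
  obtain ⟨j, hj, hj'⟩ := hl (1 - e) (by
    have h1 := h.rig.clo.add (h.rig.idn n) (h.rig.clo.smul (-1) he)
    rwa [neg_one_smul, ← sub_eq_add_neg] at h1) (by rw [sub_mul, hee, one_mul, sub_self])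
  have key : ∀ m, FiniteDimensional k (gen A Q z m) ∧ finrank k (gen A Q z m) =
      finrank k (Q m) + finrank k (RE R h.rig.clo h.rig.zero e m) := by
    intro m
    have := hK.1 m
    obtain ⟨x, hx, hx'⟩ := gap_li h.rig A hk m
    let v : Fin (finrank k (RE R h.rig.clo h.rig.zero e m)) → H m := fun i => A.act (x i) z
    have hv : ∀ i, v i ∈ gen A Q z m := fun i =>
      stable_gen A hQ z (x i) z (self_mem_gen A Q z)
    have hle : gen A Q z m ≤ Q m ⊔ Submodule.span k (Set.range v) := by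
      intro w hw
      obtain ⟨p, hp, y, rfl⟩ := (mem_gen A Q z).1 hw
      refine Submodule.add_mem _ (Submodule.mem_sup_left hp) ?_
      -- the class of `y` times `e`
      have hmem : A.cl y * e ∈ RE R h.rig.clo h.rig.zero e m :=
        ⟨h.rig.clo.comp he (A.mem y), by rw [Matrix.mul_assoc, hee]⟩
      let g := (finBasis k (RE R h.rig.clo h.rig.zero e m)).repr ⟨A.cl y * e, hmem⟩
      have hg : ∑ i, g i • (finBasis k (RE R h.rig.clo h.rig.zero e m) i :
          Matrix (Fin m → ι) (Fin n → ι) k) = A.cl y * e := by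
        have h1 := (finBasis k (RE R h.rig.clo h.rig.zero e m)).sum_repr ⟨A.cl y * e, hmem⟩
        have h2 := congrArg Subtype.val h1
        rw [Submodule.coe_sum] at h2
        exact h2
      have h0 : A.cl (y - ∑ i, g i • x i - A.comp y j) = 0 := by
        rw [map_sub, map_sub, map_sum, A.cl_comp, hj]
        have h3 : ∑ i, A.cl (g i • x i) = A.cl y * e := by
          rw [← hg]
          refine Finset.sum_congr rfl fun i _ => ?_
          rw [map_smul, hx]
        rw [h3, Matrix.mul_sub, Matrix.mul_one]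
        abel
      have h4 := hN m _ h0
      have h5 : A.act (y - ∑ i, g i • x i - A.comp y j) z =
          A.act y z - ∑ i, g i • v i - A.act y (A.act j z) := by
        rw [map_sub, map_sub, map_sum, LinearMap.sub_apply, LinearMap.sub_apply,
          LinearMap.sum_apply, A.act_comp]
        congr 2
        refine Finset.sum_congr rfl fun i _ => ?_
        rw [map_smul, LinearMap.smul_apply]
      rw [h5] at h4
      have h6 : A.act y z = (A.act y z - ∑ i, g i • v i - A.act y (A.act j z) +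
          A.act y (A.act j z)) + ∑ i, g i • v i := by abel
      rw [h6]
      refine Submodule.add_mem _ (Submodule.mem_sup_left (Submodule.add_mem _ h4 (hQ y _ hj')))
        (Submodule.mem_sup_right ?_)
      exact Submodule.sum_mem _ fun i _ => Submodule.smul_mem _ _
        (Submodule.subset_span ⟨i, rfl⟩)
    have hfs : FiniteDimensional k (Submodule.span k (Set.range v)) :=
      FiniteDimensional.span_of_finite k (Set.finite_range v)
    have hfd : FiniteDimensional k (gen A Q z m) :=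
      Submodule.finiteDimensional_of_le hle
    refine ⟨hfd, le_antisymm ?_ ?_⟩
    · calc finrank k (gen A Q z m) ≤
          finrank k (Q m ⊔ Submodule.span k (Set.range v) : Submodule k (H m)) :=
            Submodule.finrank_mono hle
        _ ≤ finrank k (Q m) + finrank k (Submodule.span k (Set.range v)) :=
            Submodule.finrank_add_le_finrank_add_finrank _ _
        _ ≤ _ := by
            refine Nat.add_le_add_left ?_ _
            refine (finrank_range_le_card v).trans ?_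
            rw [Fintype.card_fin]
    · have h1 : LI (gen A Q z) Q m (finrank k (RE R h.rig.clo h.rig.zero e m)) := ⟨v, hv, hx'⟩
      have h2 : LI Q (fun _ => ⊥) m (finrank k (Q m)) := LI.of_finrank le_rfl
      have h3 := h1.add (fun _ => bot_le) (le_gen A Q z) h2
      have h4 := h3.finrank_le
      omega
  refine ⟨L, hL, fun m => (key m).1, ?_⟩
  have h1 := hK.2.add hlim
  rw [Nat.cast_add]
  refine h1.congr fun m => ?_
  rw [(key m).2, Nat.cast_add, add_div]

theorem LI.rank {F : ∀ m, Submodule k (H m)} {m n : ℕ} (h : LI F (fun _ => ⊥) m n) :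
    (n : Cardinal) ≤ Module.rank k (F m) := by
  obtain ⟨v, hv, hv'⟩ := h
  have h1 : LinearIndependent k (fun i => (⟨v i, hv i⟩ : F m)) := by
    rw [Fintype.linearIndependent_iff]
    intro g hg i
    have h2 : ∑ i, g i • v i = 0 := by
      have h3 := congrArg Subtype.val hg
      simpa using h3
    exact congrFun (hv' g (by rw [h2]; exact Submodule.zero_mem _)) i
  have h2 := h1.cardinal_lift_le_rank
  rwa [Cardinal.mk_fin, Cardinal.lift_natCast, Cardinal.lift_uzero] at h2

/-- **The quantization law for a family of subspaces stable under correspondences.** -/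
theorem quant_dat [CharZero k] (h : Dat R q qi σ x₀ φ₀ c₀) (hnd : Nondeg R)
    (A : Acts R C H) {F : ∀ m, Submodule k (H m)} (hF : Stable A F) :
    (∀ K : ℕ, ∀ᶠ m in atTop, ((K * finrank k (BB R h.rig.clo h.rig.zero m) : ℕ) : Cardinal) ≤
        Module.rank k (F m)) ∨
      ((∀ m, FiniteDimensional k (F m)) ∧ ∃ K : ℕ,
        Tendsto (fun m => (finrank k (F m) : ℝ) / finrank k (BB R h.rig.clo h.rig.zero m))
          atTop (𝓝 K) ∧
        (K = 0 → ∀ m, F m = ⊥)) := by
  classical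
  set b : ℕ → ℕ := fun m => finrank k (BB R h.rig.clo h.rig.zero m) with hb
  have hpos : ∀ m, (0 : ℝ) < b m := fun m => by exact_mod_cast h.pos m
  by_cases hall : ∀ s, Big b F (fun _ => ⊥) s
  · left
    intro K
    obtain ⟨f, hf, L, hL, hlim⟩ := hall (K + 1)
    have h1 : ∀ᶠ m in atTop, (K : ℝ) < (f m : ℝ) / b m := by
      refine hlim.eventually (lt_mem_nhds ?_)
      have : ((K + 1 : ℕ) : ℝ) ≤ L := by exact_mod_cast hL
      push_cast at this
      linarith
    refine h1.mono fun m hm => ?_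
    rw [lt_div_iff₀ (hpos m)] at hm
    have h2 : K * b m ≤ f m := by
      have : ((K * b m : ℕ) : ℝ) < f m := by push_cast; exact hm
      exact (Nat.cast_lt.1 this).le
    exact le_trans (by exact_mod_cast h2) (hf m).rank
  · right
    push Not at hall
    obtain ⟨s₀, hs₀⟩ := hall
    -- the maximal limit
    let P : ℕ → Prop := fun K => ∃ Q : ∀ m, Submodule k (H m), Stable A Q ∧
      (∀ m, Q m ≤ F m) ∧ Lim b Q K
    have hP0 : P 0 := by
      refine ⟨fun _ => ⊥, ?_, fun _ => bot_le, lim_zero b⟩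
      intro a c x z hz
      rw [Submodule.mem_bot] at hz ⊢
      rw [hz, map_zero]
    have hPb : ∀ K, P K → K ≤ s₀ := by
      rintro K ⟨Q, -, hQF, hQ⟩
      by_contra hlt
      push Not at hlt
      exact hs₀ ((hQ.big.mono_left hQF).mono hlt.le)
    obtain ⟨Q, hQ, hQF, hQlim⟩ : P (Nat.findGreatest P s₀) :=
      Nat.findGreatest_spec (Nat.zero_le _) hP0
    have hQeq : ∀ m, Q m = F m := by
      by_contra hne
      push Not at hne
      obtain ⟨n, hn⟩ := hne
      obtain ⟨z, hz, hz'⟩ := SetLike.exists_of_lt (lt_of_le_of_ne (hQF n) hn)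
      by_cases hP : ∀ (n : ℕ), ∀ z ∈ F n, z ∉ Q n →
          ∃ (m : ℕ) (x : C n m), A.cl x = 0 ∧ A.act x z ∉ Q m
      · have h1 := big_all h hnd A hF hQ hP s₀ n z hz hz'
        exact hs₀ ((h1.mono_left (gen_le A hF hQF hz)).mono_right fun _ => bot_le)
      · push Not at hP
        obtain ⟨n', z', hz1, hz2, hN⟩ := hP
        obtain ⟨L, hL, hlim⟩ := step h hnd A hQ hQlim hz2 hN
        have hPn : P (Nat.findGreatest P s₀ + L) :=
          ⟨gen A Q z', stable_gen A hQ z', gen_le A hF hQF hz1, hlim⟩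
        have h2 := Nat.le_findGreatest (hPb _ hPn) hPn
        omega
    have hQF' : Q = F := funext hQeq
    subst hQF'
    refine ⟨hQlim.1, _, hQlim.2, fun hK n => ?_⟩
    rw [hK] at hQlim
    by_contra hne
    obtain ⟨z, hz, hz'⟩ := Submodule.exists_mem_ne_zero_of_ne_bot hne
    have hbot : Stable A (fun m => (⊥ : Submodule k (H m))) := by
      intro a c x z hz
      rw [Submodule.mem_bot] at hz ⊢
      rw [hz, map_zero]
    have h1 := big_one h hnd A hbot (z := z) (by rwa [Submodule.mem_bot])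
    obtain ⟨f, hf, L, hL, hlim⟩ := h1.mono_left (gen_le A hF (fun _ => bot_le) hz)
    have h2 : (L : ℝ) ≤ ((0 : ℕ) : ℝ) := by
      refine le_of_tendsto_of_tendsto' hlim hQlim.2 fun m => ?_
      have := hQlim.1 m
      have h3 := (hf m).finrank_le
      have h4 : (f m : ℝ) ≤ finrank k (Q m) := by exact_mod_cast h3
      exact div_le_div_of_nonneg_right h4 (hpos m).le
    have h3 : L ≤ 0 := by exact_mod_cast h2
    omega

/-- The data of the law for a nondegenerate pair of families. -/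
theorem dat_pair [CharZero k] (h : Pair R RH q qi o v d) (hr : Rig R q qi σ) (hnd : Nondeg R) :
    ∃ c : ℕ, Dat R q qi σ (v1 v) (v1 (o ᵥ* q)) c := by
  have hne : Nonempty ι := by
    obtain ⟨V, -⟩ := Function.ne_iff.1 h.pl.v1_ne
    exact ⟨V 0⟩
  obtain ⟨c, hlow⟩ := low_B h
  exact ⟨c,
    { rig := hr
      facts := facts hr hnd
      hD := Fintype.card_pos
      low := hlow
      pos := pos_B h
      hx := h.pl.pt
      hφ := h.pl.form1
      ne := by
        rw [dotProduct_comm]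
        exact h.pl.hvl }⟩

/-- **The quantization law for a family of subspaces stable under correspondences.** -/
theorem quant_mod [CharZero k] (h : Pair R RH q qi o v d) (hr : Rig R q qi σ) (hnd : Nondeg R)
    (A : Acts R C H) {F : ∀ m, Submodule k (H m)} (hF : Stable A F) :
    (∀ K : ℕ, ∀ᶠ m in atTop, ((K * finrank k (BB R h.pl.clo h.pl.zero m) : ℕ) : Cardinal) ≤
        Module.rank k (F m)) ∨
      ((∀ m, FiniteDimensional k (F m)) ∧ ∃ K : ℕ,
        Tendsto (fun m => (finrank k (F m) : ℝ) / finrank k (BB R h.pl.clo h.pl.zero m))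
          atTop (𝓝 K) ∧
        (K = 0 → ∀ m, F m = ⊥)) := by
  obtain ⟨c, hd⟩ := dat_pair h hr hnd
  exact quant_dat hd hnd A hF

end

end Pool.Agent.K4H10.QM
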